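import Mathlib
import Pool.Agent.Lib_MP_8744b5_al.Assem

/-!
# The Picard groups of `K(G;R)` form a globally defined Mackey functor

`PicK R G` is the group of tensor-invertible isomorphism classes of objects of `K(G;R)`, the
idempotent completion of the homotopy category of bounded complexes of finitely generated
permutation modules (`Cx`, `Cx.InK`, `Cx.Heq`, `Cx.tensor` in `Base.lean`, `PicK` in `KMon.lean`).
`RFB G H` is the type of finite `(G,H)`-bisets with free right action of `H` (`Biset.lean`).
-/

open PicInd

universe u

/-- For every commutative ring `R` there is a family of homomorphisms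
`F G H U : Pic(K(H;R)) → Pic(K(G;R))`, for finite groups `G`, `H` and right-free finite
`(G,H)`-bisets `U`, which depends only on the isomorphism class of `U`, is additive for disjoint
unions, functorial for the composition `U ×_H V` of bisets and identities, and is the restriction
along `α` for the biset of any group homomorphism `α : G → H`. -/
theorem Pool.Agent.Results.MP_8744b5_al.MackeyPicard.result (R : Type u) [CommRing R] :
    ∃ F : ∀ (G H : Type) [Group G] [Finite G] [Group H] [Finite H],
        RFB G H → (PicK R H →* PicK R G),
      (∀ (G H : Type) [Group G] [Finite G] [Group H] [Finite H] (U V : RFB G H),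
        U.Iso V → F G H U = F G H V) ∧
      (∀ (G H : Type) [Group G] [Finite G] [Group H] [Finite H] (U V : RFB G H),
        F G H (U.sum V) = F G H U * F G H V) ∧
      (∀ (G H : Type) [Group G] [Finite G] [Group H] [Finite H],
        F G H (RFB.empty G H) = 1) ∧
      (∀ (G H K : Type) [Group G] [Finite G] [Group H] [Finite H] [Group K] [Finite K]
        (U : RFB G H) (V : RFB H K), F G K (U.comp V) = (F G H U).comp (F H K V)) ∧
      (∀ (G : Type) [Group G] [Finite G],
        F G G (RFB.ofHom (MonoidHom.id G)) = MonoidHom.id _) ∧
      (∀ (G H : Type) [Group G] [Finite G] [Group H] [Finite H] (α : G →* H),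
        F G H (RFB.ofHom α) = PicK.res α) := by
  refine ⟨fun G H _ _ _ _ U => pnrm R U, ?_, ?_, ?_, ?_, ?_, ?_⟩
  · intro G H _ _ _ _ U V e
    exact pnrm_iso e
  · intro G H _ _ _ _ U V
    exact pnrm_sum U V
  · intro G H _ _ _ _
    exact pnrm_empty
  · intro G H K _ _ _ _ _ _ U V
    exact pnrm_comp U V
  · intro G _ _
    change pnrm R (RFB.ofHom (MonoidHom.id G)) = _
    rw [pnrm_ofHom]
    ext x
    obtain ⟨X, hX, h⟩ := (x : KMon R G).exists_mk
    change KMon.res (MonoidHom.id G) (x : KMon R G) = (x : KMon R G)
    rw [h]
    rfl
  · intro G H _ _ _ _ α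
    exact pnrm_ofHom α
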